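import Mathlib

/-!
Products of circle rotations with minimal systems.
-/

set_option autoImplicit false

open Filter Topology Set

namespace Pool.Agent.R197.Disj

/-- a map is minimal if it has no proper nonempty closed invariant set -/
def IsMinimalMap {Y : Type*} [TopologicalSpace Y] (S : Y → Y) : Prop :=
  ∀ A : Set Y, IsClosed A → A.Nonempty → MapsTo S A A → A = univ

lemma subgroup_torsion (H : AddSubgroup UnitAddCircle) (hH : IsClosed (H : Set UnitAddCircle))
    (hne : H ≠ ⊤) : ∃ r : ℕ, 1 ≤ r ∧ ∀ h ∈ H, r • h = 0 := by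
  set G : AddSubgroup ℝ := H.comap (QuotientAddGroup.mk' (AddSubgroup.zmultiples (1:ℝ))) with hG
  have hGc : IsClosed (G : Set ℝ) := hH.preimage continuous_quot_mk
  rcases AddSubgroup.dense_or_cyclic G with h | ⟨a, ha⟩
  · exfalso
    apply hne
    have h2 : (G : Set ℝ) = univ := by rw [← hGc.closure_eq]; exact h.closure_eq
    rw [AddSubgroup.eq_top_iff']
    intro x
    obtain ⟨y, rfl⟩ := QuotientAddGroup.mk_surjective x
    have h3 : y ∈ G := by rw [← SetLike.mem_coe, h2]; trivial
    exact h3
  · have h1 : (1:ℝ) ∈ G := by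
      show ((1:ℝ) : UnitAddCircle) ∈ H
      rw [AddCircle.coe_period]; exact H.zero_mem
    rw [ha, AddSubgroup.mem_closure_singleton] at h1
    obtain ⟨n, hn⟩ := h1
    have hn0 : n ≠ 0 := by rintro rfl; simp at hn
    refine ⟨n.natAbs, by omega, fun h hh => ?_⟩
    obtain ⟨y, rfl⟩ := QuotientAddGroup.mk_surjective h
    have hy : y ∈ G := hh
    rw [ha, AddSubgroup.mem_closure_singleton] at hy
    obtain ⟨m, rfl⟩ := hy
    have h2 : n • (m • a) = m • (1:ℝ) := by rw [smul_comm, hn]
    have h3 : n • (QuotientAddGroup.mk (m • a) : UnitAddCircle) = 0 := by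
      have h4 : n • (QuotientAddGroup.mk (m • a) : UnitAddCircle) =
          QuotientAddGroup.mk (n • (m • a)) := rfl
      rw [h4, h2]
      have h5 : (QuotientAddGroup.mk (m • (1:ℝ)) : UnitAddCircle) =
          m • ((1:ℝ) : UnitAddCircle) := rfl
      rw [h5, AddCircle.coe_period, smul_zero]
    rcases Int.natAbs_eq n with h4 | h4
    · rw [h4] at h3
      simpa using h3
    · rw [h4] at h3
      simpa using h3

/-- the additive eigenvalues -/
def Eig {Y : Type*} [TopologicalSpace Y] (S : Y → Y) : Set UnitAddCircle :=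
  {l | ∃ φ : C(Y, UnitAddCircle), ∀ y, φ (S y) = φ y + l}

lemma exists_rep (x : UnitAddCircle) : ∃ t : ℝ, (t : UnitAddCircle) = x ∧ |t| = ‖x‖ := by
  obtain ⟨y, rfl⟩ := QuotientAddGroup.mk_surjective x
  refine ⟨y - round y, ?_, ?_⟩
  · show ((y - round y : ℝ) : UnitAddCircle) = (y : UnitAddCircle)
    rw [AddCircle.coe_sub]
    have : ((round y : ℝ) : UnitAddCircle) = 0 := by
      rw [AddCircle.coe_eq_zero_iff]
      exact ⟨round y, by simp⟩
    rw [this, sub_zero]
  · show _ = ‖(y : UnitAddCircle)‖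
    rw [UnitAddCircle.norm_eq]

lemma norm_double (x : UnitAddCircle) (hx : ‖x‖ < 1 / 4) : ‖2 • x‖ = 2 * ‖x‖ := by
  obtain ⟨t, rfl, ht⟩ := exists_rep x
  have h1 : 2 • (t : UnitAddCircle) = ((2 * t : ℝ) : UnitAddCircle) := by
    rw [two_nsmul, ← AddCircle.coe_add, two_mul]
  rw [h1, ← ht]
  rw [← ht] at hx
  have h2 : ‖((2 * t : ℝ) : AddCircle (1:ℝ))‖ = |2 * t| := by
    rw [AddCircle.norm_coe_eq_abs_iff _ one_ne_zero]
    rw [abs_mul, abs_two, abs_one]
    linarith
  rw [abs_mul, abs_two] at h2
  exact h2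

lemma small_orbit (μ ψ : UnitAddCircle) (h : ∀ n : ℕ, ‖ψ + n • μ‖ < 1 / 8) : μ = 0 := by
  have h1 : ∀ n : ℕ, ‖n • μ‖ < 1 / 4 := by
    intro n
    have h0 := h 0
    rw [zero_smul, add_zero] at h0
    have h2 : n • μ = (ψ + n • μ) - ψ := by abel
    rw [h2]
    have := norm_sub_le (ψ + n • μ) ψ
    have := h n
    linarith
  have h2 : ∀ j : ℕ, ‖(2 ^ j) • μ‖ = 2 ^ j * ‖μ‖ := by
    intro j
    induction j with
    | zero => simp
    | succ j ih =>
      rw [pow_succ', mul_smul, norm_double _ (h1 _), ih]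
      ring
  by_contra hne
  have hpos : 0 < ‖μ‖ := norm_pos_iff.2 hne
  obtain ⟨j, hj⟩ := pow_unbounded_of_one_lt (1 / ‖μ‖) (show (1:ℝ) < 2 by norm_num)
  have h3 := h1 (2 ^ j)
  rw [h2] at h3
  rw [div_lt_iff₀ hpos] at hj
  linarith

lemma eig_countable {Y : Type*} [MetricSpace Y] [CompactSpace Y] [Nonempty Y] (S : Y → Y) :
    (Eig S).Countable := by
  classical
  have hch : ∀ l : UnitAddCircle, ∃ φ : C(Y, UnitAddCircle), l ∈ Eig S →
      ∀ y, φ (S y) = φ y + l := by
    intro l
    by_cases hl : l ∈ Eig S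
    · obtain ⟨φ, hφ⟩ := hl
      exact ⟨φ, fun _ => hφ⟩
    · exact ⟨0, fun h => absurd h hl⟩
  choose φ hφ using hch
  apply Set.PairwiseDisjoint.countable_of_isOpen (s := fun l => Metric.ball (φ l) (1 / 16))
  · intro l hl l' hl' hne
    rw [Function.onFun, Set.disjoint_left]
    intro g hg hg'
    apply hne
    rw [Metric.mem_ball] at hg hg'
    have hd : dist (φ l) (φ l') < 1 / 8 := by
      have := dist_triangle_left (φ l) (φ l') g
      linarith
    obtain ⟨y⟩ := ‹Nonempty Y›
    have hit : ∀ (k : UnitAddCircle), k ∈ Eig S → ∀ n : ℕ, φ k (S^[n] y) = φ k y + n • k := by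
      intro k hk n
      induction n with
      | zero => simp
      | succ n ih =>
        rw [Function.iterate_succ_apply', hφ k hk, ih, succ_nsmul]
        abel
    have := small_orbit (l - l') (φ l y - φ l' y) (by
      intro n
      have h1 : φ l y - φ l' y + n • (l - l') = φ l (S^[n] y) - φ l' (S^[n] y) := by
        rw [hit l hl, hit l' hl', smul_sub]
        abel
      rw [h1, ← dist_eq_norm]
      exact (ContinuousMap.dist_apply_le_dist _).trans_lt hd)
    exact sub_eq_zero.1 this
  · intro l _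
    exact Metric.isOpen_ball
  · intro l _
    exact ⟨φ l, Metric.mem_ball_self (by norm_num)⟩

lemma exists_minimal_subset {Z : Type*} [TopologicalSpace Z] [CompactSpace Z] (R : Z → Z)
    (A : Set Z) (hA : IsClosed A) (hne : A.Nonempty) (hm : MapsTo R A A) :
    ∃ M ⊆ A, IsClosed M ∧ M.Nonempty ∧ MapsTo R M M ∧
      ∀ B ⊆ M, IsClosed B → B.Nonempty → MapsTo R B B → B = M := by
  obtain ⟨M, hMA, hM⟩ := zorn_superset_nonempty
    {B : Set Z | IsClosed B ∧ B.Nonempty ∧ MapsTo R B B} (by
      intro c hc hchain hcne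
      refine ⟨⋂₀ c, ⟨isClosed_sInter fun s hs => (hc hs).1, ?_, ?_⟩, fun s hs => sInter_subset_of_mem hs⟩
      · have := hcne.to_subtype
        exact IsCompact.nonempty_sInter_of_directed_nonempty_isCompact_isClosed
          (by
            intro s hs t ht
            rcases hchain.total hs ht with h | h
            · exact ⟨s, hs, Subset.rfl, h⟩
            · exact ⟨t, ht, h, Subset.rfl⟩)
          (fun s hs => (hc hs).2.1) (fun s hs => (hc hs).1.isCompact) (fun s hs => (hc hs).1)
      · intro z hz s hs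
        exact (hc hs).2.2 (hz s hs)) A ⟨hA, hne, hm⟩
  refine ⟨M, hMA, hM.prop.1, hM.prop.2.1, hM.prop.2.2, fun B hB h1 h2 h3 => ?_⟩
  exact Subset.antisymm hB (hM.le_of_le ⟨h1, h2, h3⟩ hB)

lemma prod_minimal {Y : Type*} [MetricSpace Y] [CompactSpace Y] [Nonempty Y] (S : Y → Y)
    (hmin : IsMinimalMap S) (α : UnitAddCircle)
    (hα : ∀ r : ℕ, 1 ≤ r → r • α ∉ Eig S) :
    IsMinimalMap (fun q : UnitAddCircle × Y => (q.1 + α, S q.2)) := by
  intro A hA hAne hAm
  obtain ⟨M, hMA, hMc, hMne, hMm, hMmin⟩ := exists_minimal_subset _ A hA hAne hAm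
  -- projection
  have hsnd : Prod.snd '' M = univ := by
    apply hmin
    · exact (hMc.isCompact.image continuous_snd).isClosed
    · exact hMne.image _
    · rintro _ ⟨q, hq, rfl⟩
      exact ⟨_, hMm hq, rfl⟩
  -- translations
  have key : ∀ (h t : UnitAddCircle) (y : Y), (t, y) ∈ M → (t + h, y) ∈ M →
      ∀ q ∈ M, (q.1 + h, q.2) ∈ M := by
    intro h t y h1 h2
    have hB : M ∩ {q | (q.1 + h, q.2) ∈ M} = M := by
      apply hMmin _ inter_subset_left
      · apply hMc.inter
        exact hMc.preimage (by fun_prop : Continuous fun q : UnitAddCircle × Y => (q.1 + h, q.2))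
      · exact ⟨(t, y), h1, h2⟩
      · rintro q ⟨h3, h4⟩
        refine ⟨hMm h3, ?_⟩
        have := hMm h4
        simp only [Set.mem_ofPred_eq] at *
        rwa [show q.1 + α + h = q.1 + h + α by abel]
    intro q hq
    rw [← hB] at hq
    exact hq.2
  let H : AddSubgroup UnitAddCircle :=
    { carrier := {h | ∀ q ∈ M, (q.1 + h, q.2) ∈ M}
      zero_mem' := by
        intro q hq
        simpa using hq
      add_mem' := by
        intro a b ha hb q hq
        have := hb _ (ha q hq)
        simpa [add_assoc] using this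
      neg_mem' := by
        intro a ha
        obtain ⟨q, hq⟩ := hMne
        apply key _ (q.1 + a) q.2 (ha q hq)
        simpa using hq }
  have hHmem : ∀ h, h ∈ H ↔ ∀ q ∈ M, (q.1 + h, q.2) ∈ M := fun h => Iff.rfl
  have hHc : IsClosed (H : Set UnitAddCircle) := by
    have : (H : Set UnitAddCircle) = ⋂ q ∈ M, {h | (q.1 + h, q.2) ∈ M} := by
      ext h
      simp only [SetLike.mem_coe, hHmem, mem_iInter]
      rfl
    rw [this]
    refine isClosed_biInter fun q _ => ?_
    exact hMc.preimage (by fun_prop : Continuous fun h : UnitAddCircle => (q.1 + h, q.2))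
  have hMuniv : M = univ := by
    by_cases htop : H = ⊤
    · ext ⟨t, y⟩
      simp only [mem_univ, iff_true]
      have hy : y ∈ Prod.snd '' M := by rw [hsnd]; trivial
      obtain ⟨q, hq, rfl⟩ := hy
      have h1 : t - q.1 ∈ H := by rw [htop]; trivial
      have h2 := (hHmem _).1 h1 q hq
      simpa using h2
    · exfalso
      obtain ⟨r, hr, hr0⟩ := subgroup_torsion H hHc htop
      have hex : ∀ y : Y, ∃ t, (t, y) ∈ M := by
        intro y
        have hy : y ∈ Prod.snd '' M := by rw [hsnd]; trivial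
        obtain ⟨q, hq, rfl⟩ := hy
        exact ⟨q.1, hq⟩
      choose t ht using hex
      have hwd : ∀ q ∈ M, r • q.1 = r • t q.2 := by
        intro q hq
        have h1 : q.1 - t q.2 ∈ H := by
          rw [hHmem]
          apply key _ (t q.2) q.2 (ht _)
          simpa using hq
        have h2 := hr0 _ h1
        rw [smul_sub, sub_eq_zero] at h2
        exact h2
      have hcont : Continuous fun y => r • t y := by
        rw [continuous_iff_isClosed]
        intro C hC
        have h1 : (fun y => r • t y) ⁻¹' C = Prod.snd '' (M ∩ {q | r • q.1 ∈ C}) := by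
          ext y
          constructor
          · intro hy
            exact ⟨(t y, y), ⟨ht y, hy⟩, rfl⟩
          · rintro ⟨q, ⟨hq1, hq2⟩, rfl⟩
            have := hwd q hq1
            show r • t q.2 ∈ C
            rw [← this]
            exact hq2
        rw [h1]
        apply IsCompact.isClosed
        apply IsCompact.image _ continuous_snd
        apply IsClosed.isCompact
        apply hMc.inter
        exact hC.preimage (by fun_prop : Continuous fun q : UnitAddCircle × Y => r • q.1)
      apply hα r hr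
      refine ⟨⟨fun y => r • t y, hcont⟩, fun y => ?_⟩
      show r • t (S y) = r • t y + r • α
      have h1 := hwd _ (hMm (ht y))
      rw [← h1, smul_add]
  exact Subset.antisymm (subset_univ _) (hMuniv ▸ hMA)

end Pool.Agent.R197.Disj
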