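import Mathlib
import Pool.Agent.R197.DisjA

/-!
The system: closure of the graph of a continuous family of almost periodic sequences.
-/

set_option autoImplicit false

open Filter Topology Set

namespace Pool.Agent.R197.Disj

/-- the parameters -/
abbrev PP : Type := (ℕ → Bool) × Icc (1 : ℝ) 2

/-- the ambient space -/
abbrev EE : Type := PP × (ℤ → ℝ)

/-- weights -/
noncomputable def w (b : Bool) : ℝ := if b then 12 else 0

lemma w_nonneg (b : Bool) : 0 ≤ w b := by unfold w; split_ifs <;> norm_num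

lemma w_le (b : Bool) : w b ≤ 12 := by unfold w; split_ifs <;> norm_num

/-- the terms -/
noncomputable def term (p : PP) (n : ℤ) (k : ℕ) : ℝ :=
  w (p.1 k) * ‖((n * (p.2 : ℝ) / 2 ^ k : ℝ) : UnitAddCircle)‖

lemma term_nonneg (p : PP) (n : ℤ) (k : ℕ) : 0 ≤ term p n k :=
  mul_nonneg (w_nonneg _) (norm_nonneg _)

lemma norm_coe_le (x : ℝ) : ‖(x : UnitAddCircle)‖ ≤ |x| := by
  rw [UnitAddCircle.norm_eq]
  simpa using round_le x 0

lemma term_le (p : PP) (n : ℤ) (k : ℕ) : term p n k ≤ 24 * |(n : ℝ)| * (1 / 2) ^ k := by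
  unfold term
  have h1 : ‖((n * (p.2 : ℝ) / 2 ^ k : ℝ) : UnitAddCircle)‖ ≤ 2 * |(n : ℝ)| * (1 / 2) ^ k := by
    refine (norm_coe_le _).trans ?_
    rw [abs_div, abs_mul, abs_of_pos (show (0 : ℝ) < 2 ^ k by positivity)]
    have h2 : |(p.2 : ℝ)| ≤ 2 := by
      rw [abs_of_nonneg (by linarith [p.2.2.1])]
      exact p.2.2.2
    rw [one_div_pow, mul_one_div]
    have h3 : |(n : ℝ)| * |(p.2 : ℝ)| ≤ 2 * |(n : ℝ)| := by
      nlinarith [abs_nonneg (n : ℝ)]
    gcongr
  calc w (p.1 k) * ‖((n * (p.2 : ℝ) / 2 ^ k : ℝ) : UnitAddCircle)‖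
      ≤ 12 * (2 * |(n : ℝ)| * (1 / 2) ^ k) := by
        gcongr
        exact w_le _
    _ = _ := by ring

lemma summable_bound (n : ℤ) : Summable fun k : ℕ => 24 * |(n : ℝ)| * (1 / 2 : ℝ) ^ k :=
  (summable_geometric_of_lt_one (by norm_num) (by norm_num)).mul_left _

lemma summable_term (p : PP) (n : ℤ) : Summable (term p n) :=
  Summable.of_nonneg_of_le (term_nonneg p n) (term_le p n) (summable_bound n)

/-- the norm-like function -/
noncomputable def f (p : PP) (n : ℤ) : ℝ := ∑' k, term p n k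

lemma f_nonneg (p : PP) (n : ℤ) : 0 ≤ f p n := tsum_nonneg (term_nonneg p n)

lemma continuous_term (n : ℤ) (k : ℕ) : Continuous fun p : PP => term p n k := by
  unfold term
  have h1 : Continuous fun p : PP => w (p.1 k) :=
    (continuous_of_discreteTopology (f := w)).comp ((continuous_apply k).comp continuous_fst)
  have h2 : Continuous fun p : PP => ((n * (p.2 : ℝ) / 2 ^ k : ℝ) : UnitAddCircle) := by
    have h3 : Continuous fun p : PP => (n * (p.2 : ℝ) / 2 ^ k : ℝ) := by fun_prop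
    exact (AddCircle.continuous_mk' (1 : ℝ)).comp h3
  exact h1.mul h2.norm

lemma continuous_f (n : ℤ) : Continuous fun p : PP => f p n := by
  unfold f
  refine continuous_tsum (continuous_term n) (summable_bound n) fun k p => ?_
  rw [Real.norm_eq_abs, abs_of_nonneg (term_nonneg p n k)]
  exact term_le p n k

lemma f_zero (p : PP) : f p 0 = 0 := by
  unfold f term
  simp

lemma f_add (p : PP) (n m : ℤ) : f p (n + m) ≤ f p n + f p m := by
  unfold f
  rw [← (summable_term p n).tsum_add (summable_term p m)]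
  refine (summable_term p _).tsum_le_tsum (fun k => ?_) ((summable_term p n).add (summable_term p m))
  unfold term
  rw [← mul_add]
  apply mul_le_mul_of_nonneg_left _ (w_nonneg _)
  refine le_trans (le_of_eq ?_) (norm_add_le _ _)
  congr 1
  rw [← AddCircle.coe_add]
  congr 1
  push_cast
  ring

lemma f_neg (p : PP) (n : ℤ) : f p (-n) = f p n := by
  unfold f
  congr 1
  funext k
  unfold term
  congr 1
  rw [← norm_neg, ← AddCircle.coe_neg]
  congr 2
  push_cast
  ring

lemma f_lower (p : PP) (n m : ℤ) : f p m - f p n ≤ f p (m + n) := by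
  have h1 := f_add p (m + n) (-n)
  rw [f_neg, add_neg_cancel_right] at h1
  linarith

lemma f_ge (p : PP) (k : ℕ) (hk : p.1 k = true) (m : ℤ) (h1 : 2 ^ k / 4 ≤ (m : ℝ) * p.2)
    (h2 : (m : ℝ) * p.2 ≤ 3 * 2 ^ k / 4) : 3 ≤ f p m := by
  have h3 : term p m k ≤ f p m := (summable_term p m).le_tsum k fun j _ => term_nonneg p m j
  refine le_trans ?_ h3
  unfold term w
  rw [hk, if_pos rfl]
  have h4 : (1 : ℝ) / 4 ≤ ‖((m * (p.2 : ℝ) / 2 ^ k : ℝ) : UnitAddCircle)‖ := by
    rw [UnitAddCircle.norm_eq]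
    set x : ℝ := m * (p.2 : ℝ) / 2 ^ k with hx
    have hp : (0 : ℝ) < 2 ^ k := by positivity
    have h5 : 1 / 4 ≤ x := by
      rw [hx, le_div_iff₀ hp]
      linarith
    have h6 : x ≤ 3 / 4 := by
      rw [hx, div_le_iff₀ hp]
      linarith
    rcases le_or_gt (round x) 0 with h7 | h7
    · have h8 : ((round x : ℤ) : ℝ) ≤ 0 := by exact_mod_cast h7
      exact le_trans (by linarith) (le_abs_self _)
    · have h8 : (1 : ℝ) ≤ ((round x : ℤ) : ℝ) := by exact_mod_cast h7
      exact le_trans (by linarith) (neg_le_abs _)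
  linarith

/-- the sequences -/
noncomputable def xx (p : PP) (n : ℤ) : ℝ := max 0 (1 - f p n)

lemma xx_mem (p : PP) (n : ℤ) : xx p n ∈ Icc (0 : ℝ) 1 :=
  ⟨le_max_left _ _, max_le (by norm_num) (by linarith [f_nonneg p n])⟩

/-- points of the system -/
noncomputable def emb (p : PP) (n : ℤ) : EE := (p, fun m => xx p (m + n))

lemma continuous_emb (n : ℤ) : Continuous fun p : PP => emb p n := by
  unfold emb
  refine continuous_id.prodMk (continuous_pi fun m => ?_)
  unfold xx
  exact continuous_const.max (continuous_const.sub (continuous_f _))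

/-- the system -/
def XX : Set EE := closure (range fun q : PP × ℤ => emb q.1 q.2)

lemma emb_mem (p : PP) (n : ℤ) : emb p n ∈ XX := subset_closure ⟨(p, n), rfl⟩

lemma XX_compact : IsCompact XX := by
  have h1 : IsCompact ((univ : Set PP) ×ˢ (Set.pi univ fun _ : ℤ => Icc (0 : ℝ) 1)) :=
    isCompact_univ.prod (isCompact_univ_pi fun _ => isCompact_Icc)
  refine h1.of_isClosed_subset isClosed_closure (closure_minimal ?_ h1.isClosed)
  rintro _ ⟨q, rfl⟩
  exact ⟨trivial, fun m _ => xx_mem _ _⟩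

/-- the shift -/
def sh (z : EE) : EE := (z.1, fun m => z.2 (m + 1))

/-- the inverse shift -/
def shi (z : EE) : EE := (z.1, fun m => z.2 (m - 1))

lemma continuous_sh : Continuous sh := by unfold sh; fun_prop

lemma continuous_shi : Continuous shi := by unfold shi; fun_prop

lemma sh_shi (z : EE) : sh (shi z) = z := by
  unfold sh shi
  simp

lemma sh_emb (p : PP) (n : ℤ) : sh (emb p n) = emb p (n + 1) := by
  unfold sh emb
  simp only [Prod.mk.injEq, true_and]
  funext m
  congr 1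
  ring

lemma shi_emb (p : PP) (n : ℤ) : shi (emb p n) = emb p (n - 1) := by
  unfold shi emb
  simp only [Prod.mk.injEq, true_and]
  funext m
  congr 1
  ring

lemma sh_mem {z : EE} (hz : z ∈ XX) : sh z ∈ XX := by
  have h : MapsTo sh (range fun q : PP × ℤ => emb q.1 q.2) (range fun q : PP × ℤ => emb q.1 q.2) := by
    rintro _ ⟨q, rfl⟩
    exact ⟨(q.1, q.2 + 1), (sh_emb _ _).symm⟩
  exact h.closure continuous_sh hz

lemma shi_mem {z : EE} (hz : z ∈ XX) : shi z ∈ XX := by
  have h : MapsTo shi (range fun q : PP × ℤ => emb q.1 q.2)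
      (range fun q : PP × ℤ => emb q.1 q.2) := by
    rintro _ ⟨q, rfl⟩
    exact ⟨(q.1, q.2 - 1), (shi_emb _ _).symm⟩
  exact h.closure continuous_shi hz

/-- the property of the fibres -/
lemma fibre {z : EE} (hz : z ∈ XX) (m : ℤ) (h0 : 0 < z.2 0) (hm : 2 < f z.1 m) : z.2 m = 0 := by
  have hcl : IsClosed {z : EE | z.2 0 ≤ 0 ∨ f z.1 m ≤ 2 ∨ z.2 m = 0} := by
    refine IsClosed.union ?_ (IsClosed.union ?_ ?_)
    · exact isClosed_le (by fun_prop : Continuous fun z : EE => z.2 0) continuous_const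
    · exact isClosed_le ((continuous_f m).comp continuous_fst) continuous_const
    · exact isClosed_eq (by fun_prop : Continuous fun z : EE => z.2 m) continuous_const
  have hsub : XX ⊆ {z : EE | z.2 0 ≤ 0 ∨ f z.1 m ≤ 2 ∨ z.2 m = 0} := by
    apply closure_minimal _ hcl
    rintro _ ⟨⟨p, n⟩, rfl⟩
    by_contra hcon
    simp only [Set.mem_ofPred_eq, not_or, not_le] at hcon
    obtain ⟨h1, h2, h3⟩ := hcon
    have h4 : f p n < 1 := by
      by_contra h5
      push Not at h5
      have : (emb p n).2 0 = 0 := by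
        show xx p (0 + n) = 0
        rw [zero_add]
        exact max_eq_left (by linarith)
      linarith
    apply h3
    show xx p (m + n) = 0
    have h5 := f_lower p n m
    have h6 : 2 < f p m := h2
    exact max_eq_left (by linarith)
  rcases hsub hz with h | h | h
  · exact absurd h0 (not_lt.2 h)
  · exact absurd hm (not_lt.2 h)
  · exact h

/-! ### disjointness -/

/-- the model map on the circle -/
noncomputable def Psi (p : PP) (K : ℕ) (t : UnitAddCircle) (n : ℤ) : ℝ :=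
  max 0 (1 - ∑ k ∈ Finset.range (K + 1),
    w (p.1 k) * ‖2 ^ (K - k) • (t + n • (((p.2 : ℝ) / 2 ^ K : ℝ) : UnitAddCircle))‖)

lemma continuous_Psi (p : PP) (K : ℕ) : Continuous (Psi p K) := by
  unfold Psi
  fun_prop

lemma Psi_add (p : PP) (K : ℕ) (t : UnitAddCircle) (n m : ℤ) :
    Psi p K (t + m • (((p.2 : ℝ) / 2 ^ K : ℝ) : UnitAddCircle)) n = Psi p K t (n + m) := by
  unfold Psi
  congr 2
  apply Finset.sum_congr rfl
  intro k _
  rw [add_smul]
  congr 3
  abel

lemma Psi_zero (p : PP) (K : ℕ) (hK : ∀ k, p.1 k = true → k ≤ K) (n : ℤ) :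
    Psi p K 0 n = xx p n := by
  unfold Psi xx f
  congr 2
  rw [tsum_eq_sum (s := Finset.range (K + 1))]
  · apply Finset.sum_congr rfl
    intro k hk
    unfold term
    congr 2
    rw [Finset.mem_range] at hk
    rw [zero_add, ← AddCircle.coe_zsmul, ← AddCircle.coe_nsmul]
    congr 1
    have h1 : (2 : ℝ) ^ K = 2 ^ (K - k) * 2 ^ k := by
      rw [← pow_add]
      congr 1
      omega
    rw [h1]
    simp only [zsmul_eq_mul, nsmul_eq_mul, Nat.cast_pow, Nat.cast_ofNat]
    field_simp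
  · intro k hk
    rw [Finset.mem_range] at hk
    unfold term
    have : p.1 k = false := by
      by_contra h
      have := hK k (by simpa using h)
      omega
    rw [this]
    simp [w]

lemma good_fibre {Y : Type*} [MetricSpace Y] [CompactSpace Y] [Nonempty Y] (S : Y → Y)
    (hmin : IsMinimalMap S) (J : Set (EE × Y)) (hJ : IsClosed J)
    (hJm : ∀ q ∈ J, (sh q.1, S q.2) ∈ J) (hJX : ∀ z ∈ XX, ∃ y, (z, y) ∈ J)
    (p : PP) (K : ℕ) (hK : ∀ k, p.1 k = true → k ≤ K)
    (hp : ∀ r : ℕ, 1 ≤ r → r • (((p.2 : ℝ) / 2 ^ K : ℝ) : UnitAddCircle) ∉ Eig S) (n : ℤ) (y : Y) :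
    (emb p n, y) ∈ J := by
  set α := (((p.2 : ℝ) / 2 ^ K : ℝ) : UnitAddCircle) with hα
  have hmin2 := prod_minimal S hmin α hp
  have hM := hmin2 {q : UnitAddCircle × Y | ((p, Psi p K q.1), q.2) ∈ J} (by
      refine hJ.preimage ?_
      have := continuous_Psi p K
      fun_prop) (by
      obtain ⟨y, hy⟩ := hJX _ (emb_mem p 0)
      refine ⟨(0, y), ?_⟩
      show ((p, Psi p K 0), y) ∈ J
      have : emb p 0 = (p, Psi p K 0) := by
        unfold emb
        congr 1
        funext m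
        rw [add_zero, Psi_zero p K hK]
      rwa [← this]) (by
      rintro ⟨t, y⟩ hq
      have h1 := hJm _ hq
      show ((p, Psi p K (t + α)), S y) ∈ J
      have h2 : sh (p, Psi p K t) = (p, Psi p K (t + α)) := by
        unfold sh
        congr 1
        funext m
        have := Psi_add p K t m 1
        rw [one_smul] at this
        exact this.symm
      rwa [← h2])
  have h3 : ((n • α : UnitAddCircle), y) ∈ {q : UnitAddCircle × Y | ((p, Psi p K q.1), q.2) ∈ J} := by
    rw [hM]; trivial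
  have h4 : ((p, Psi p K (n • α)), y) ∈ J := h3
  have h5 : emb p n = (p, Psi p K (n • α)) := by
    unfold emb
    congr 1
    funext m
    rw [← Psi_zero p K hK, ← Psi_add, zero_add]
  rwa [h5]

lemma dense_fin : Dense {e : ℕ → Bool | ∃ K, ∀ k, e k = true → k ≤ K} := by
  intro e
  have h1 : Tendsto (fun N : ℕ => fun k => if k < N then e k else false) atTop (𝓝 e) := by
    rw [tendsto_pi_nhds]
    intro k
    refine tendsto_const_nhds.congr' ?_
    filter_upwards [eventually_gt_atTop k] with N hN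
    rw [if_pos hN]
  refine mem_closure_of_tendsto h1 (Eventually.of_forall fun N => ⟨N, fun k hk => ?_⟩)
  by_contra hcon
  have hk' : (if k < N then e k else false) = true := hk
  rw [if_neg (by omega)] at hk'
  exact absurd hk' (by decide)

lemma dense_inf : Dense {e : ℕ → Bool | ∀ K, ∃ k, K ≤ k ∧ e k = true} := by
  intro e
  have h1 : Tendsto (fun N : ℕ => fun k => if k < N then e k else true) atTop (𝓝 e) := by
    rw [tendsto_pi_nhds]
    intro k
    refine tendsto_const_nhds.congr' ?_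
    filter_upwards [eventually_gt_atTop k] with N hN
    rw [if_pos hN]
  refine mem_closure_of_tendsto h1 (Eventually.of_forall fun N => fun K => ⟨max K N, le_max_left _ _, ?_⟩)
  show (if max K N < N then e (max K N) else true) = true
  rw [if_neg (by simp)]

lemma dense_good (L : Set UnitAddCircle) (hL : L.Countable) :
    Dense {θ : Icc (1 : ℝ) 2 | ∀ K r : ℕ, 1 ≤ r →
      r • (((θ : ℝ) / 2 ^ K : ℝ) : UnitAddCircle) ∉ L} := by
  have hc : {θ : ℝ | ∃ K r : ℕ, 1 ≤ r ∧
      r • ((θ / 2 ^ K : ℝ) : UnitAddCircle) ∈ L}.Countable := by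
    have h1 : {θ : ℝ | ∃ K r : ℕ, 1 ≤ r ∧ r • ((θ / 2 ^ K : ℝ) : UnitAddCircle) ∈ L} ⊆
        ⋃ K : ℕ, ⋃ r : ℕ, ⋃ l ∈ L, range fun n : ℤ =>
          (((Quotient.out l : ℝ) + n) * 2 ^ K / (r : ℝ)) := by
      rintro θ ⟨K, r, hr, hl⟩
      simp only [mem_iUnion]
      refine ⟨K, r, _, hl, ?_⟩
      rw [← AddCircle.coe_nsmul] at hl ⊢
      set l : UnitAddCircle := ((r • (θ / 2 ^ K) : ℝ) : UnitAddCircle) with hldef
      have h2 : ((Quotient.out l : ℝ) : UnitAddCircle) = l := Quotient.out_eq' l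
      have h3 : ((r • (θ / 2 ^ K) - (Quotient.out l : ℝ) : ℝ) : UnitAddCircle) = 0 := by
        rw [AddCircle.coe_sub, h2, hldef, sub_self]
      rw [AddCircle.coe_eq_zero_iff] at h3
      obtain ⟨n, hn⟩ := h3
      refine ⟨n, ?_⟩
      have hr0 : (0 : ℝ) < r := by exact_mod_cast hr
      have h4 : (Quotient.out l : ℝ) + n = r * (θ / 2 ^ K) := by
        rw [zsmul_eq_mul, mul_one, nsmul_eq_mul] at hn
        linarith
      show ((Quotient.out l : ℝ) + n) * 2 ^ K / (r : ℝ) = θ
      rw [h4]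
      field_simp
    refine Countable.mono h1 ?_
    exact countable_iUnion fun K => countable_iUnion fun r => hL.biUnion fun l _ => countable_range _
  rw [Subtype.dense_iff]
  intro θ hθ
  have h2 : Dense ({θ : ℝ | ∃ K r : ℕ, 1 ≤ r ∧
      r • ((θ / 2 ^ K : ℝ) : UnitAddCircle) ∈ L}ᶜ) := hc.dense_compl ℝ
  have h3 : Icc (1 : ℝ) 2 ⊆ closure (Ioo (1 : ℝ) 2 ∩ {θ : ℝ | ∃ K r : ℕ, 1 ≤ r ∧
      r • ((θ / 2 ^ K : ℝ) : UnitAddCircle) ∈ L}ᶜ) := by
    rw [← closure_Ioo (show (1 : ℝ) ≠ 2 by norm_num)]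
    apply closure_minimal _ isClosed_closure
    exact h2.open_subset_closure_inter isOpen_Ioo
  refine closure_mono ?_ (h3 hθ)
  rintro t ⟨h4, h5⟩
  refine ⟨⟨t, Ioo_subset_Icc_self h4⟩, ?_, rfl⟩
  intro K r hr hl
  exact h5 ⟨K, r, hr, hl⟩

lemma disj {Y : Type*} [MetricSpace Y] [CompactSpace Y] [Nonempty Y] (S : Y → Y)
    (hmin : IsMinimalMap S) (J : Set (EE × Y)) (hJ : IsClosed J)
    (hJm : ∀ q ∈ J, (sh q.1, S q.2) ∈ J) (hJX : ∀ z ∈ XX, ∃ y, (z, y) ∈ J)
    (z : EE) (hz : z ∈ XX) (y : Y) : (z, y) ∈ J := by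
  have hD : Dense ({e : ℕ → Bool | ∃ K, ∀ k, e k = true → k ≤ K} ×ˢ
      {θ : Icc (1 : ℝ) 2 | ∀ K r : ℕ, 1 ≤ r →
      r • (((θ : ℝ) / 2 ^ K : ℝ) : UnitAddCircle) ∉ Eig S}) :=
    dense_fin.prod (dense_good _ (eig_countable S))
  have hcl : ∀ n : ℤ, IsClosed {p : PP | (emb p n, y) ∈ J} := fun n =>
    hJ.preimage ((continuous_emb n).prodMk continuous_const)
  have hall : ∀ (p : PP) (n : ℤ), (emb p n, y) ∈ J := by
    intro p n
    have h1 : ({e : ℕ → Bool | ∃ K, ∀ k, e k = true → k ≤ K} ×ˢ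
      {θ : Icc (1 : ℝ) 2 | ∀ K r : ℕ, 1 ≤ r →
      r • (((θ : ℝ) / 2 ^ K : ℝ) : UnitAddCircle) ∉ Eig S}) ⊆ {p : PP | (emb p n, y) ∈ J} := by
      rintro q ⟨⟨K, hK⟩, hq2⟩
      exact good_fibre S hmin J hJ hJm hJX q K hK (fun r hr => hq2 K r hr) n y
    have h2 := closure_minimal h1 (hcl n)
    rw [hD.closure_eq] at h2
    exact h2 trivial
  have h3 : XX ⊆ {z : EE | (z, y) ∈ J} := by
    apply closure_minimal
    · rintro _ ⟨q, rfl⟩
      exact hall q.1 q.2
    · exact hJ.preimage (by fun_prop : Continuous fun z : EE => (z, y))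
  exact h3 hz

end Pool.Agent.R197.Disj
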