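import Mathlib
import Pool.Agent.R197.DisjB

/-!
Generic points of the system have orbit closures without dense minimal points.
-/

set_option autoImplicit false

open Filter Topology Set

namespace Pool.Agent.R197.Disj

/-- the closure of the forward orbit -/
def orbitClosure {X : Type*} [TopologicalSpace X] (T : X → X) (x : X) : Set X :=
  closure (range fun n : ℕ => T^[n] x)

/-- a point is minimal if its orbit closure has no proper nonempty closed invariant subset -/
def IsMinimalPoint {X : Type*} [TopologicalSpace X] (T : X → X) (x : X) : Prop :=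
  ∀ B ⊆ orbitClosure T x, IsClosed B → B.Nonempty → MapsTo T B B → B = orbitClosure T x

/-- the system -/
def T (z : XX) : XX := ⟨sh z.1, sh_mem z.2⟩

lemma continuous_T : Continuous T := (continuous_sh.comp continuous_subtype_val).subtype_mk _

lemma surjective_T : Function.Surjective T := by
  intro z
  refine ⟨⟨shi z.1, shi_mem z.2⟩, ?_⟩
  apply Subtype.ext
  exact sh_shi z.1

lemma T_iter (m : ℕ) (z : XX) : (T^[m] z).1 = (z.1.1, fun i => z.1.2 (i + m)) := by
  induction m generalizing z with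
  | zero => simp
  | succ m ih =>
    rw [Function.iterate_succ_apply, ih]
    show ((T z).1.1, fun i => (T z).1.2 (i + m)) = _
    unfold T sh
    simp only [Prod.mk.injEq, true_and]
    funext i
    push_cast
    ring_nf

lemma orbitClosure_closed (z : XX) : IsClosed (orbitClosure T z) := isClosed_closure

lemma iter_mem (m : ℕ) (z : XX) : T^[m] z ∈ orbitClosure T z := subset_closure ⟨m, rfl⟩

lemma orbitClosure_maps (z : XX) : MapsTo T (orbitClosure T z) (orbitClosure T z) := by
  have h : MapsTo T (range fun n : ℕ => T^[n] z) (range fun n : ℕ => T^[n] z) := by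
    rintro _ ⟨n, rfl⟩
    exact ⟨n + 1, Function.iterate_succ_apply' T n z⟩
  exact h.closure continuous_T

lemma continuous_coord (i : ℤ) : Continuous fun z : XX => z.1.2 i := by fun_prop

lemma not_minimal (z : XX) (hz : ∀ K, ∃ k, K ≤ k ∧ z.1.1.1 k = true) (h0 : 0 < z.1.2 0) :
    ¬ IsMinimalPoint T z := by
  intro hmin
  have hcs : CompactSpace XX := isCompact_iff_compactSpace.1 XX_compact
  -- long blocks of zeros
  have hblock : ∀ j : ℕ, ∃ m : ℕ, ∀ i : ℕ, i ≤ j → (T^[m] z).1.2 (i : ℤ) = 0 := by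
    intro j
    obtain ⟨k, hk, hkt⟩ := hz (8 * j + 2)
    refine ⟨2 ^ (k - 2), fun i hi => ?_⟩
    rw [T_iter]
    show z.1.2 ((i : ℤ) + ((2 ^ (k - 2) : ℕ) : ℤ)) = 0
    apply fibre z.2 _ h0
    have h8 : (8 : ℝ) * j ≤ 2 ^ k := by
      have h9 : 8 * j ≤ 2 ^ k := by
        have h10 : k < 2 ^ k := Nat.lt_two_pow_self
        omega
      exact_mod_cast h9
    have hpow : (2 : ℝ) ^ (k - 2) = 2 ^ k / 4 := by
      have h11 : (2 : ℝ) ^ k = 2 ^ (k - 2) * 2 ^ 2 := by
        rw [← pow_add]
        congr 1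
        omega
      rw [h11]
      ring
    have hθ1 : (1 : ℝ) ≤ (z.1.1.2 : ℝ) := z.1.1.2.2.1
    have hθ2 : (z.1.1.2 : ℝ) ≤ 2 := z.1.1.2.2.2
    have hi' : (i : ℝ) ≤ j := by exact_mod_cast hi
    have hi0 : (0 : ℝ) ≤ i := Nat.cast_nonneg i
    have hp : (0 : ℝ) < 2 ^ k := by positivity
    have := f_ge z.1.1 k hkt ((i : ℤ) + ((2 ^ (k - 2) : ℕ) : ℤ)) (by
      push_cast
      rw [hpow]
      nlinarith) (by
      push_cast
      rw [hpow]
      nlinarith)
    linarith
  have hne : (⋂ j : ℕ, (orbitClosure T z ∩ {y : XX | ∀ i : ℕ, i ≤ j → y.1.2 (i : ℤ) = 0})).Nonempty := by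
    have hclosed : ∀ j : ℕ, IsClosed (orbitClosure T z ∩
        {y : XX | ∀ i : ℕ, i ≤ j → y.1.2 (i : ℤ) = 0}) := by
      intro j
      refine (orbitClosure_closed z).inter ?_
      have : {y : XX | ∀ i : ℕ, i ≤ j → y.1.2 (i : ℤ) = 0} =
          ⋂ i : ℕ, ⋂ _ : i ≤ j, {y : XX | y.1.2 (i : ℤ) = 0} := by
        ext y; simp
      rw [this]
      exact isClosed_iInter fun i => isClosed_iInter fun _ =>
        isClosed_eq (continuous_coord _) continuous_const
    apply IsCompact.nonempty_iInter_of_sequence_nonempty_isCompact_isClosed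
    · intro j y hy
      exact ⟨hy.1, fun i hi => hy.2 i (by omega)⟩
    · intro j
      obtain ⟨m, hm⟩ := hblock j
      exact ⟨T^[m] z, iter_mem m z, hm⟩
    · exact (hclosed 0).isCompact
    · exact hclosed
  have hB := hmin (orbitClosure T z ∩ {y : XX | ∀ i : ℕ, y.1.2 (i : ℤ) = 0}) inter_subset_left
    (by
      refine (orbitClosure_closed z).inter ?_
      have : {y : XX | ∀ i : ℕ, y.1.2 (i : ℤ) = 0} = ⋂ i : ℕ, {y : XX | y.1.2 (i : ℤ) = 0} := by
        ext y; simp
      rw [this]
      exact isClosed_iInter fun i => isClosed_eq (continuous_coord _) continuous_const)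
    (by
      obtain ⟨y, hy⟩ := hne
      rw [mem_iInter] at hy
      exact ⟨y, (hy 0).1, fun i => (hy i).2 i le_rfl⟩)
    (by
      rintro y ⟨h1, h2⟩
      refine ⟨orbitClosure_maps z h1, fun i => ?_⟩
      have := h2 (i + 1)
      push_cast at this
      exact this)
  have hz2 : z ∈ orbitClosure T z := iter_mem 0 z
  rw [← hB] at hz2
  have := hz2.2 0
  simp only [Nat.cast_zero] at this
  linarith

/-- the generic set -/
def GG : Set XX :=
  {z | ∀ K, ∃ k, K ≤ k ∧ z.1.1.1 k = true} ∩ {z | ∃ n : ℕ, 0 < (T^[n] z).1.2 0}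

lemma isOpen_level (K : ℕ) : IsOpen {z : XX | ∃ k, K ≤ k ∧ z.1.1.1 k = true} := by
  have : {z : XX | ∃ k, K ≤ k ∧ z.1.1.1 k = true} =
      ⋃ k : ℕ, ⋃ _ : K ≤ k, {z : XX | z.1.1.1 k = true} := by
    ext z; simp
  rw [this]
  refine isOpen_iUnion fun k => isOpen_iUnion fun _ => ?_
  have h1 : Continuous fun z : XX => z.1.1.1 k := by fun_prop
  exact (isOpen_discrete {true}).preimage h1

lemma isOpen_visit : IsOpen {z : XX | ∃ n : ℕ, 0 < (T^[n] z).1.2 0} := by
  have : {z : XX | ∃ n : ℕ, 0 < (T^[n] z).1.2 0} =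
      ⋃ n : ℕ, {z : XX | 0 < (T^[n] z).1.2 0} := by
    ext z; simp
  rw [this]
  refine isOpen_iUnion fun n => ?_
  exact isOpen_lt continuous_const ((continuous_coord 0).comp (continuous_T.iterate n))

lemma gdelta_inf : IsGδ {z : XX | ∀ K, ∃ k, K ≤ k ∧ z.1.1.1 k = true} := by
  have : {z : XX | ∀ K, ∃ k, K ≤ k ∧ z.1.1.1 k = true} =
      ⋂ K : ℕ, {z : XX | ∃ k, K ≤ k ∧ z.1.1.1 k = true} := by
    ext z; simp
  rw [this]
  exact IsGδ.iInter_of_isOpen fun K => isOpen_level K

/-- a criterion for density in the system -/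
lemma dense_of (D : Set (ℕ → Bool)) (hD : Dense D) (A : Set XX)
    (hA : ∀ (p : PP) (n : ℤ), p.1 ∈ D → (⟨emb p n, emb_mem p n⟩ : XX) ∈ A) : Dense A := by
  rw [Subtype.dense_iff]
  apply closure_minimal _ isClosed_closure
  rintro _ ⟨⟨p, n⟩, rfl⟩
  have h1 : (D ×ˢ (univ : Set (Icc (1 : ℝ) 2))) ⊆
      {p : PP | emb p n ∈ closure (Subtype.val '' A)} := by
    rintro q ⟨hq, _⟩
    exact subset_closure ⟨_, hA q n hq, rfl⟩
  have h2 := closure_minimal h1 (isClosed_closure.preimage (continuous_emb n))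
  rw [(hD.prod dense_univ).closure_eq] at h2
  exact h2 trivial

lemma dense_inf' : Dense {z : XX | ∀ K, ∃ k, K ≤ k ∧ z.1.1.1 k = true} :=
  dense_of _ dense_inf _ fun _ _ hp => hp

lemma T_iter_emb (p : PP) (n : ℤ) (m : ℕ) :
    (T^[m] (⟨emb p n, emb_mem p n⟩ : XX)).1 = emb p (n + m) := by
  rw [T_iter]
  unfold emb
  simp only [Prod.mk.injEq, true_and]
  funext i
  congr 1
  ring

lemma f_return (p : PP) (K : ℕ) (hK : ∀ k, p.1 k = true → k ≤ K) (M : ℕ) :
    ∃ m : ℕ, M ≤ m ∧ f p m < 1 := by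
  set α := (((p.2 : ℝ) / 2 ^ K : ℝ) : UnitAddCircle) with hα
  have hfm : ∀ m : ℕ, f p m ≤ (K + 1) * (12 * 2 ^ K) * ‖m • α‖ := by
    intro m
    unfold f
    rw [tsum_eq_sum (s := Finset.range (K + 1))]
    · calc ∑ k ∈ Finset.range (K + 1), term p m k
          ≤ ∑ k ∈ Finset.range (K + 1), 12 * 2 ^ K * ‖m • α‖ := by
            apply Finset.sum_le_sum
            intro k hk
            rw [Finset.mem_range] at hk
            unfold term
            have h1 : ((((m : ℤ) : ℝ) * (p.2 : ℝ) / 2 ^ k : ℝ) : UnitAddCircle) =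
                2 ^ (K - k) • (m • α) := by
              rw [hα, ← AddCircle.coe_nsmul, ← AddCircle.coe_nsmul]
              congr 1
              have h1 : (2 : ℝ) ^ K = 2 ^ (K - k) * 2 ^ k := by
                rw [← pow_add]
                congr 1
                omega
              rw [h1]
              simp only [nsmul_eq_mul, Nat.cast_pow, Nat.cast_ofNat, Int.cast_natCast]
              field_simp
            rw [h1]
            have h2 : ‖2 ^ (K - k) • (m • α)‖ ≤ 2 ^ K * ‖m • α‖ := by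
              refine (norm_nsmul_le).trans ?_
              push_cast
              gcongr
              · norm_num
              · omega
            rw [mul_assoc]
            gcongr
            exact w_le _
        _ = (K + 1) * (12 * 2 ^ K) * ‖m • α‖ := by
          rw [Finset.sum_const, Finset.card_range, nsmul_eq_mul]
          push_cast
          ring
    · intro k hk
      rw [Finset.mem_range] at hk
      unfold term
      have : p.1 k = false := by
        by_contra h
        have := hK k (by simpa using h)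
        omega
      rw [this]
      simp [w]
  obtain ⟨N, hN⟩ := exists_nat_gt (((K : ℝ) + 1) * (12 * 2 ^ K))
  have hNpos : 0 < N := by
    have : (0 : ℝ) < N := lt_of_le_of_lt (by positivity) hN
    exact_mod_cast this
  obtain ⟨j, hj, hj2⟩ := AddCircle.exists_norm_nsmul_le (T := (1 : ℝ)) ((M + 1) • α) hNpos
  refine ⟨j * (M + 1), ?_, ?_⟩
  · have : 1 ≤ j := (Set.mem_Icc.1 hj).1
    nlinarith
  · refine (hfm _).trans_lt ?_
    rw [mul_smul]
    have hN1 : (0 : ℝ) < (N : ℝ) + 1 := by positivity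
    calc (K + 1) * (12 * 2 ^ K) * ‖j • (M + 1) • α‖
        ≤ (K + 1) * (12 * 2 ^ K) * (1 / ((N : ℝ) + 1)) := by
          gcongr
          exact_mod_cast hj2
      _ < 1 := by
          rw [mul_one_div, div_lt_one hN1]
          linarith

lemma dense_visit : Dense {z : XX | ∃ n : ℕ, 0 < (T^[n] z).1.2 0} := by
  apply dense_of _ dense_fin
  rintro p n ⟨K, hK⟩
  obtain ⟨m, hm, hfm⟩ := f_return p K hK n.natAbs
  have hcase : ∃ j : ℕ, n + (j : ℤ) = m := ⟨((m : ℤ) - n).toNat, by omega⟩
  obtain ⟨j, hj⟩ := hcase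
  refine ⟨j, ?_⟩
  rw [T_iter_emb, hj]
  show 0 < xx p (0 + (m : ℤ))
  rw [zero_add]
  exact lt_of_lt_of_le (by linarith) (le_max_right _ _)

lemma gdelta_GG : IsGδ GG := gdelta_inf.inter isOpen_visit.isGδ

lemma dense_GG : Dense GG := by
  have hcs : CompactSpace XX := isCompact_iff_compactSpace.1 XX_compact
  exact dense_inf'.inter_of_Gδ gdelta_inf isOpen_visit.isGδ dense_visit

lemma generic_fail (z : XX) (hz : z ∈ GG) :
    ¬ orbitClosure T z ⊆ closure {y | y ∈ orbitClosure T z ∧ IsMinimalPoint T y} := by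
  intro hcon
  obtain ⟨h1, n, h2⟩ := hz
  have h3 := hcon (iter_mem n z)
  rw [mem_closure_iff] at h3
  obtain ⟨y, hy0, hy1, hy2⟩ := h3 {y : XX | 0 < y.1.2 0}
    (isOpen_lt continuous_const (continuous_coord 0)) h2
  have h4 : orbitClosure T z ⊆ {y : XX | y.1.1 = z.1.1} := by
    apply closure_minimal
    · rintro _ ⟨m, rfl⟩
      show (T^[m] z).1.1 = z.1.1
      rw [T_iter]
    · exact isClosed_eq (by fun_prop : Continuous fun y : XX => y.1.1) continuous_const
  have h5 : y.1.1 = z.1.1 := h4 hy1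
  exact not_minimal y (by rw [h5]; exact h1) hy0 hy2

end Pool.Agent.R197.Disj
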